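import Pool.Agent.H930Z.Riem.Defs

namespace H930Z.Riem

open Finset MvPolynomial

lemma coeff_dU (g : A) (m : ℕ →₀ ℕ) :
    coeff m (dU g) = PowerSeries.derivative ℂ (coeff m g) := by
  unfold dU
  rw [coeff_sum]
  simp only [coeff_monomial]
  rw [Finset.sum_ite_eq' g.support m]
  split_ifs with h
  · rfl
  · rw [notMem_support_iff.mp h, map_zero]

lemma dU_add (g h : A) : dU (g + h) = dU g + dU h := by
  ext1 m; simp [coeff_dU]

lemma dU_zero : dU 0 = 0 := by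
  ext1 m; simp [coeff_dU]

lemma dU_mul (g h : A) : dU (g * h) = dU g * h + g * dU h := by
  classical
  ext1 m
  simp only [coeff_dU, coeff_add, coeff_mul, map_sum, ← Finset.sum_add_distrib]
  refine Finset.sum_congr rfl fun p _ => ?_
  rw [Derivation.leibniz, smul_eq_mul, smul_eq_mul]; ring

lemma dU_C (c : R) : dU (C c) = C (PowerSeries.derivative ℂ c) := by
  classical
  ext1 m
  simp only [coeff_dU, coeff_C]
  split_ifs <;> simp

lemma dU_X (i : ℕ) : dU (X i) = 0 := by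
  classical
  ext1 m
  simp only [coeff_dU, coeff_X, coeff_zero]
  split_ifs <;> simp

/-- general first order operator -/
noncomputable def op (a : A) (c : ℕ → A) (g : A) : A :=
  dU g * a + ∑ i ∈ g.vars, pderiv i g * c i

lemma op_eq (a : A) (c : ℕ → A) (g : A) (s : Finset ℕ) (hs : g.vars ⊆ s) :
    op a c g = dU g * a + ∑ i ∈ s, pderiv i g * c i := by
  unfold op
  congr 1
  refine Finset.sum_subset hs fun i _ hi => ?_
  rw [pderiv_eq_zero_of_notMem_vars hi, zero_mul]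

lemma op_add (a : A) (c : ℕ → A) (g h : A) : op a c (g + h) = op a c g + op a c h := by
  classical
  rw [op_eq a c (g + h) (g.vars ∪ h.vars) (vars_add_subset g h),
    op_eq a c g (g.vars ∪ h.vars) subset_union_left,
    op_eq a c h (g.vars ∪ h.vars) subset_union_right, dU_add]
  simp only [map_add, add_mul, Finset.sum_add_distrib]; ring

lemma op_zero (a : A) (c : ℕ → A) : op a c 0 = 0 := by
  simp [op, dU_zero]

lemma op_mul (a : A) (c : ℕ → A) (g h : A) : op a c (g * h) = op a c g * h + g * op a c h := by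
  classical
  rw [op_eq a c (g * h) (g.vars ∪ h.vars) (vars_mul g h),
    op_eq a c g (g.vars ∪ h.vars) subset_union_left,
    op_eq a c h (g.vars ∪ h.vars) subset_union_right, dU_mul]
  simp only [Derivation.leibniz, smul_eq_mul, add_mul, mul_add, Finset.sum_add_distrib,
    Finset.sum_mul, Finset.mul_sum]
  have e1 : ∑ i ∈ g.vars ∪ h.vars, g * pderiv i h * c i
      = ∑ i ∈ g.vars ∪ h.vars, g * (pderiv i h * c i) := Finset.sum_congr rfl fun i _ => by ring
  have e2 : ∑ i ∈ g.vars ∪ h.vars, h * pderiv i g * c i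
      = ∑ i ∈ g.vars ∪ h.vars, pderiv i g * c i * h := Finset.sum_congr rfl fun i _ => by ring
  rw [e1, e2]; ring

lemma op_C (a : A) (c : ℕ → A) (r : R) :
    op a c (C r) = C (PowerSeries.derivative ℂ r) * a := by
  simp [op, dU_C]

lemma op_X (a : A) (c : ℕ → A) (i : ℕ) : op a c (X i) = c i := by
  simp [op, dU_X]

lemma op_sum {ι : Type} (a : A) (c : ℕ → A) (s : Finset ι) (g : ι → A) :
    op a c (∑ i ∈ s, g i) = ∑ i ∈ s, op a c (g i) := by
  classical
  induction s using Finset.induction_on with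
  | empty => simp [op_zero]
  | insert i s hi ih => rw [Finset.sum_insert hi, Finset.sum_insert hi, op_add, ih]

lemma dX_eq (g : A) : dX g = op (X 0) (fun i => X (i + 1)) g := rfl

lemma ev_eq (P g : A) : ev P g = op P (fun i => dX^[i + 1] P) g := rfl

lemma dX_zero : dX 0 = 0 := op_zero _ _

lemma dX_iter_zero (n : ℕ) : dX^[n] 0 = 0 := Function.iterate_fixed dX_zero n

lemma ev_zero_left (g : A) : ev 0 g = 0 := by
  simp [ev, dX_iter_zero, -Function.iterate_succ]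

lemma ev_zero (P : A) : ev P 0 = 0 := op_zero _ _

lemma ev_u (P : A) : ev P u = P := by
  rw [ev_eq, u, op_C]; simp

lemma ev_X0 (P : A) : ev P (X 0) = dX P := by
  rw [ev_eq, op_X]; rfl

lemma dX_u : dX u = X 0 := by
  rw [dX_eq, u, op_C]; simp

lemma dX_X (i : ℕ) : dX (X i) = X (i + 1) := by
  rw [dX_eq, op_X]

/-! ### Series in `ε` -/

lemma coeff_dXH (g : Ahat) (n : ℕ) : PowerSeries.coeff n (dXH g) = dX (PowerSeries.coeff n g) := by
  simp [dXH]

lemma coeff_evH (P g : Ahat) (n : ℕ) : PowerSeries.coeff n (evH P g) =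
    ∑ p ∈ antidiagonal n, ev (PowerSeries.coeff p.1 P) (PowerSeries.coeff p.2 g) := by
  simp [evH]

lemma dXH_add (g h : Ahat) : dXH (g + h) = dXH g + dXH h := by
  ext1 n; simp [coeff_dXH, dX_eq, op_add]

lemma dXH_mul (g h : Ahat) : dXH (g * h) = dXH g * h + g * dXH h := by
  ext1 n
  simp only [coeff_dXH, map_add, PowerSeries.coeff_mul, dX_eq, op_sum, op_mul,
    Finset.sum_add_distrib]

lemma dXH_C (g : A) : dXH (PowerSeries.C g) = PowerSeries.C (dX g) := by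
  ext1 n
  simp only [coeff_dXH, PowerSeries.coeff_C]
  split_ifs <;> simp [dX_zero]

lemma dX_one : dX 1 = 0 := by
  rw [dX_eq, ← C_1, op_C]; simp

lemma ev_one (P : A) : ev P 1 = 0 := by
  rw [ev_eq, ← C_1, op_C]; simp

lemma dXH_X : dXH PowerSeries.X = 0 := by
  ext1 n
  simp only [coeff_dXH, PowerSeries.coeff_X]
  split_ifs <;> simp [dX_zero, dX_one]

lemma evH_add (P g h : Ahat) : evH P (g + h) = evH P g + evH P h := by
  ext1 n; simp [coeff_evH, ev_eq, op_add, Finset.sum_add_distrib]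

lemma tri1 {M : Type} [AddCommMonoid M] (F : ℕ → ℕ → ℕ → M) (n : ℕ) :
    ∑ p ∈ antidiagonal n, ∑ q ∈ antidiagonal p.2, F p.1 q.1 q.2 =
      ∑ p ∈ antidiagonal n, ∑ q ∈ antidiagonal p.1, F q.1 q.2 p.2 := by
  rw [Finset.sum_sigma', Finset.sum_sigma']
  refine Finset.sum_nbij' (fun x => ⟨(x.1.1 + x.2.1, x.2.2), (x.1.1, x.2.1)⟩)
    (fun x => ⟨(x.2.1, x.2.2 + x.1.2), (x.2.2, x.1.2)⟩) ?_ ?_ ?_ ?_ ?_
  · rintro ⟨⟨a, b⟩, ⟨c, d⟩⟩ h; simp at h ⊢; omega
  · rintro ⟨⟨a, b⟩, ⟨c, d⟩⟩ h; simp at h ⊢; omega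
  · rintro ⟨⟨a, b⟩, ⟨c, d⟩⟩ h; simp at h ⊢; obtain ⟨h1, rfl⟩ := h; simp
  · rintro ⟨⟨a, b⟩, ⟨c, d⟩⟩ h; simp at h ⊢; obtain ⟨h1, rfl⟩ := h; simp
  · rintro ⟨⟨a, b⟩, ⟨c, d⟩⟩ h; rfl

lemma tri2 {M : Type} [AddCommMonoid M] (F : ℕ → ℕ → ℕ → M) (n : ℕ) :
    ∑ p ∈ antidiagonal n, ∑ q ∈ antidiagonal p.2, F p.1 q.1 q.2 =
      ∑ p ∈ antidiagonal n, ∑ q ∈ antidiagonal p.2, F q.1 p.1 q.2 := by
  rw [Finset.sum_sigma', Finset.sum_sigma']
  refine Finset.sum_nbij' (fun x => ⟨(x.2.1, x.1.1 + x.2.2), (x.1.1, x.2.2)⟩)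
    (fun x => ⟨(x.2.1, x.1.1 + x.2.2), (x.1.1, x.2.2)⟩) ?_ ?_ ?_ ?_ ?_
  · rintro ⟨⟨a, b⟩, ⟨c, d⟩⟩ h; simp at h ⊢; omega
  · rintro ⟨⟨a, b⟩, ⟨c, d⟩⟩ h; simp at h ⊢; omega
  · rintro ⟨⟨a, b⟩, ⟨c, d⟩⟩ h; simp at h ⊢; obtain ⟨h1, rfl⟩ := h; simp
  · rintro ⟨⟨a, b⟩, ⟨c, d⟩⟩ h; simp at h ⊢; obtain ⟨h1, rfl⟩ := h; simp
  · rintro ⟨⟨a, b⟩, ⟨c, d⟩⟩ h; rfl

lemma ev_mul (P g h : A) : ev P (g * h) = ev P g * h + g * ev P h := op_mul _ _ _ _

lemma ev_add (P g h : A) : ev P (g + h) = ev P g + ev P h := op_add _ _ _ _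

lemma ev_sum {ι : Type} (P : A) (s : Finset ι) (g : ι → A) :
    ev P (∑ i ∈ s, g i) = ∑ i ∈ s, ev P (g i) := op_sum _ _ _ _

lemma evH_mul (P g h : Ahat) : evH P (g * h) = evH P g * h + g * evH P h := by
  ext1 n
  simp only [coeff_evH, map_add, PowerSeries.coeff_mul, ev_sum, ev_mul,
    Finset.sum_add_distrib, Finset.sum_mul, Finset.mul_sum]
  rw [tri1 (fun a c d => ev (PowerSeries.coeff a P) (PowerSeries.coeff c g) * PowerSeries.coeff d h),
    tri2 (fun a c d => PowerSeries.coeff c g * ev (PowerSeries.coeff a P) (PowerSeries.coeff d h))]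

lemma coeff_evH_C (P : Ahat) (g : A) (n : ℕ) :
    PowerSeries.coeff n (evH P (PowerSeries.C g)) = ev (PowerSeries.coeff n P) g := by
  rw [coeff_evH, Finset.sum_eq_single (n, 0)]
  · simp
  · rintro ⟨a, c⟩ h1 h2
    have : c ≠ 0 := by
      rintro rfl
      simp at h1; exact h2 (by simp [h1])
    simp [PowerSeries.coeff_C, this, ev_zero]
  · simp

lemma evH_u (P : Ahat) : evH P (PowerSeries.C u) = P := by
  ext1 n; rw [coeff_evH_C, ev_u]

lemma evH_X0 (P : Ahat) : evH P (PowerSeries.C (X 0)) = dXH P := by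
  ext1 n; rw [coeff_evH_C, ev_X0, coeff_dXH]

lemma evH_X (P : Ahat) : evH P PowerSeries.X = 0 := by
  ext1 n
  rw [coeff_evH, map_zero]
  refine Finset.sum_eq_zero fun p _ => ?_
  rw [PowerSeries.coeff_X]
  split_ifs <;> simp [ev_zero, ev_one]

lemma evH_const (P : Ahat) (c : ℂ) : evH P (PowerSeries.C (C (PowerSeries.C c))) = 0 := by
  ext1 n; rw [coeff_evH_C, ev_eq, op_C]; simp

lemma dXH_const (c : ℂ) : dXH (PowerSeries.C (C (PowerSeries.C c))) = 0 := by
  rw [dXH_C, dX_eq, op_C]; simp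

lemma der_pow (D : Ahat → Ahat) (hD : ∀ g h, D (g * h) = D g * h + g * D h) (φ : Ahat) (d : ℕ) :
    D (φ ^ d) = (d : Ahat) * φ ^ (d - 1) * D φ := by
  induction d with
  | zero =>
    have := hD 1 1
    simp only [mul_one, one_mul] at this
    simpa using this
  | succ d ih =>
    rw [pow_succ, hD, ih]
    cases d with
    | zero => simp
    | succ d => simp only [Nat.add_sub_cancel]; push_cast; ring

end H930Z.Riem
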