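import Mathlib

/-! Differential polynomials, deformations of the Riemann hierarchy, Miura transformations. -/

namespace H930Z.Riem

open Finset

/-- `ℂ[[u]]`. -/
abbrev R : Type := PowerSeries ℂ

/-- `𝒜_u = ℂ[[u]][u_1, u_2, …]`; the variable `X i` stands for `u_{i+1}`. -/
abbrev A : Type := MvPolynomial ℕ R

/-- `𝒜_u[[ε]]`; the power series variable is `ε`. -/
abbrev Ahat : Type := PowerSeries A

/-- The element `u` of `𝒜_u`. -/
noncomputable def u : A := MvPolynomial.C PowerSeries.X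

/-- `∂/∂u` on `𝒜_u`: differentiate every coefficient. -/
noncomputable def dU (g : A) : A :=
  ∑ m ∈ g.support, MvPolynomial.monomial m (PowerSeries.derivative ℂ (MvPolynomial.coeff m g))

/-- The total derivative `∂_x = u_1 ∂/∂u + ∑ u_{i+1} ∂/∂u_i` on `𝒜_u`. -/
noncomputable def dX (g : A) : A :=
  dU g * MvPolynomial.X 0 + ∑ i ∈ g.vars, MvPolynomial.pderiv i g * MvPolynomial.X (i + 1)

/-- The derivative of `g` along the flow `u_t = P`:
`(∂g/∂u) P + ∑_{i ≥ 1} (∂g/∂u_i) ∂_x^i P`. -/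
noncomputable def ev (P g : A) : A :=
  dU g * P + ∑ i ∈ g.vars, MvPolynomial.pderiv i g * dX^[i + 1] P

/-- `∂_x` on `𝒜_u[[ε]]`, coefficient by coefficient. -/
noncomputable def dXH (g : Ahat) : Ahat := PowerSeries.mk fun n => dX (PowerSeries.coeff n g)

/-- The derivative of `g` along the flow `u_t = P`, for series in `ε` (bilinear extension). -/
noncomputable def evH (P g : Ahat) : Ahat :=
  PowerSeries.mk fun n => ∑ p ∈ antidiagonal n, ev (PowerSeries.coeff p.1 P) (PowerSeries.coeff p.2 g)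

/-- `g` has degree `d` for `deg u_i = i`, `deg ε = -1`: the coefficient of `ε^k` lies in
`𝒜_{u; k+d}`. -/
def Deg (d : ℕ) (g : Ahat) : Prop :=
  ∀ k, MvPolynomial.IsWeightedHomogeneous (fun i : ℕ => i + 1) (PowerSeries.coeff k g) (k + d)

/-- A deformation of the Riemann hierarchy: pairwise commuting flows `u_{t_d} = Q d` of degree
one with `Q d = u^d / d! · u_x + O(ε)`. -/
structure IsDeformation (Q : ℕ → Ahat) : Prop where
  deg : ∀ d, Deg 1 (Q d)
  lead : ∀ d, PowerSeries.coeff 0 (Q d) =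
    MvPolynomial.C (((d.factorial : ℂ)⁻¹) • (PowerSeries.X : R) ^ d) * MvPolynomial.X 0
  comm : ∀ a b, evH (Q a) (Q b) = evH (Q b) (Q a)

/-- The new variable `v = u + w`. -/
noncomputable def newVar (w : Ahat) : Ahat := PowerSeries.C u + w

/-- `c(u + w) = ∑_j c^{(j)}(u) w^j / j!` for `c ∈ ℂ[[u]]` and `w = O(ε)`; only the terms with
`j ≤ n` contribute to the coefficient of `ε^n`. -/
noncomputable def taylor (w : Ahat) (c : R) : Ahat :=
  PowerSeries.mk fun n => PowerSeries.coeff n (∑ j ∈ range (n + 1),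
    PowerSeries.C (MvPolynomial.C (((j.factorial : ℂ)⁻¹) • (PowerSeries.derivative ℂ)^[j] c)) * w ^ j)

/-- `g(v, v_x, v_xx, …)` for `g ∈ 𝒜_u` and `v = u + w`. -/
noncomputable def subst0 (w : Ahat) (g : A) : Ahat :=
  ∑ m ∈ g.support, taylor w (MvPolynomial.coeff m g) *
    ∏ i ∈ m.support, (dXH^[i + 1] (newVar w)) ^ (m i)

/-- `g(v, v_x, v_xx, …; ε)` for `g ∈ 𝒜_u[[ε]]` and `v = u + w`. -/
noncomputable def subst (w g : Ahat) : Ahat :=
  PowerSeries.mk fun n => ∑ p ∈ antidiagonal n,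
    PowerSeries.coeff p.1 (subst0 w (PowerSeries.coeff p.2 g))

/-- `u ↦ v = u + w` is a Miura transformation: `w = ∑_{k ≥ 1} ε^k f_k` with `f_k ∈ 𝒜_{u;k}`. -/
def IsMiura (w : Ahat) : Prop := Deg 0 w ∧ PowerSeries.coeff 0 w = 0

/-- The change of variable `v = u + w` carries the flows `u_{t_d} = Q d` to the flows
`v_{t_d} = Q' d`, written in `v`. -/
def Carries (w : Ahat) (Q Q' : ℕ → Ahat) : Prop :=
  ∀ d, evH (Q d) (newVar w) = subst w (Q' d)

/-- One of the two families is carried to the other by a Miura transformation. -/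
def MiuraEquiv (Q Q' : ℕ → Ahat) : Prop :=
  ∃ w, IsMiura w ∧ (Carries w Q Q' ∨ Carries w Q' Q)

/-- `b_k`: the coefficient of `ε^{k-1} u_k`. -/
noncomputable def b (k : ℕ) (g : Ahat) : R :=
  MvPolynomial.coeff (Finsupp.single (k - 1) 1) (PowerSeries.coeff (k - 1) g)

end H930Z.Riem
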