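import Pool.Agent.H930Z.Riem.Calc

namespace H930Z.Riem

open Finset MvPolynomial

/-- constants -/
noncomputable def K (c : ℂ) : Ahat := PowerSeries.C (C (PowerSeries.C c))

/-- `u_1` and `u_2` as series -/
noncomputable def U1 : Ahat := PowerSeries.C (X 0)
noncomputable def U2 : Ahat := PowerSeries.C (X 1)

/-- `φ = u + c ε u_x` -/
noncomputable def phi (c : ℂ) : Ahat := PowerSeries.C u + K c * PowerSeries.X * U1

/-- the flows `φ^d / d! · u_x` -/
noncomputable def Q (c : ℂ) (d : ℕ) : Ahat := K ((d.factorial : ℂ)⁻¹) * phi c ^ d * U1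

lemma dXH_U1 : dXH U1 = U2 := by rw [U1, dXH_C, dX_X]; rfl

lemma dXH_phi (c : ℂ) : dXH (phi c) = U1 + K c * PowerSeries.X * U2 := by
  rw [phi, dXH_add, dXH_mul, dXH_mul, dXH_C, dX_u, K, dXH_const, dXH_X, dXH_U1]
  simp [U1]

lemma evH_phi (c : ℂ) (P : Ahat) : evH P (phi c) = P + K c * PowerSeries.X * dXH P := by
  rw [phi, evH_add, evH_mul, evH_mul, evH_u, K, evH_const, evH_X, U1, evH_X0]
  simp

lemma dXH_Q (c : ℂ) (d : ℕ) : dXH (Q c d) = K ((d.factorial : ℂ)⁻¹) *
    ((d : Ahat) * phi c ^ (d - 1) * (U1 + K c * PowerSeries.X * U2) * U1 + phi c ^ d * U2) := by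
  rw [Q, dXH_mul, dXH_mul, der_pow dXH dXH_mul, dXH_phi, dXH_U1, K, dXH_const]
  ring

lemma evH_Q (c : ℂ) (P : Ahat) (d : ℕ) : evH P (Q c d) = K ((d.factorial : ℂ)⁻¹) *
    ((d : Ahat) * phi c ^ (d - 1) * (P + K c * PowerSeries.X * dXH P) * U1
      + phi c ^ d * dXH P) := by
  rw [Q, evH_mul, evH_mul, der_pow (evH P) (evH_mul P), evH_phi, U1, evH_X0, K, evH_const]
  ring

lemma Q_comm (c : ℂ) (a d : ℕ) : evH (Q c a) (Q c d) = evH (Q c d) (Q c a) := by
  rw [evH_Q, evH_Q, dXH_Q, dXH_Q, Q, Q]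
  generalize phi c ^ (a - 1) = pa'
  generalize phi c ^ (d - 1) = pd'
  generalize phi c ^ a = pa
  generalize phi c ^ d = pd
  ring

lemma Deg.mul {a d : ℕ} {g h : Ahat} (hg : Deg a g) (hh : Deg d h) : Deg (a + d) (g * h) := by
  intro k
  rw [PowerSeries.coeff_mul]
  refine IsWeightedHomogeneous.sum _ _ _ fun p hp => ?_
  have := (hg p.1).mul (hh p.2)
  have e : p.1 + a + (p.2 + d) = k + (a + d) := by
    have := mem_antidiagonal.mp hp; omega
  rwa [e] at this

lemma Deg.add {a : ℕ} {g h : Ahat} (hg : Deg a g) (hh : Deg a h) : Deg a (g + h) := by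
  intro k
  rw [map_add]
  exact (hg k).add (hh k)

lemma deg_C (r : R) : Deg 0 (PowerSeries.C (C r)) := by
  intro k
  rw [PowerSeries.coeff_C]
  split_ifs with h
  · subst h; exact isWeightedHomogeneous_C _ _
  · exact isWeightedHomogeneous_zero _ _ _

lemma deg_U1 : Deg 1 U1 := by
  intro k
  rw [U1, PowerSeries.coeff_C]
  split_ifs with h
  · subst h; exact isWeightedHomogeneous_X R (fun i : ℕ => i + 1) 0
  · exact isWeightedHomogeneous_zero _ _ _

lemma deg_XU1 : Deg 0 (PowerSeries.X * U1) := by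
  intro k
  cases k with
  | zero => simpa using isWeightedHomogeneous_zero _ _ _
  | succ k =>
    rw [PowerSeries.coeff_succ_X_mul]
    exact deg_U1 k

lemma deg_phi (c : ℂ) : Deg 0 (phi c) := by
  refine (deg_C _).add ?_
  rw [mul_assoc]
  exact (deg_C _).mul deg_XU1

lemma deg_pow {g : Ahat} (hg : Deg 0 g) (d : ℕ) : Deg 0 (g ^ d) := by
  induction d with
  | zero => simpa using deg_C 1
  | succ d ih => rw [pow_succ]; exact ih.mul hg

lemma isDef (c : ℂ) : IsDeformation (Q c) where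
  deg d := ((deg_C _).mul (deg_pow (deg_phi c) d)).mul deg_U1
  lead d := by
    simp [Q, K, phi, U1, u, PowerSeries.smul_eq_C_mul]
  comm := Q_comm c

lemma Q_one (c : ℂ) : Q c 1 = PowerSeries.C (u * X 0) +
    PowerSeries.X * PowerSeries.C (C (PowerSeries.C c) * X 0 ^ 2) := by
  simp [Q, K, phi, U1]; ring

lemma coeff0_Q (c : ℂ) : PowerSeries.coeff 0 (Q c 1) = u * X 0 := by
  simp [Q_one]

lemma coeff1_Q (c : ℂ) : PowerSeries.coeff 1 (Q c 1) = C (PowerSeries.C c) * X 0 ^ 2 := by
  rw [Q_one, map_add, PowerSeries.coeff_succ_X_mul, PowerSeries.coeff_C, PowerSeries.coeff_C]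
  simp

lemma b_Q (c : ℂ) (k : ℕ) (hk : 2 ≤ k) : b k (Q c 1) = 0 := by
  obtain ⟨j, rfl⟩ : ∃ j, k = j + 2 := ⟨k - 2, by omega⟩
  have e : j + 2 - 1 = j + 1 := by omega
  rw [b, e, Q_one, map_add, PowerSeries.coeff_succ_X_mul, PowerSeries.coeff_C,
    PowerSeries.coeff_C]
  simp only [Nat.add_eq_zero_iff, one_ne_zero, and_false, if_false, zero_add]
  split_ifs with h
  · subst h
    rw [coeff_C_mul, coeff_X_pow, if_neg, mul_zero]
    intro h
    have := DFunLike.congr_fun h 0
    simp at this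
  · simp

lemma weight_one (m : ℕ →₀ ℕ) (h : Finsupp.weight (fun i : ℕ => i + 1) m = 1) :
    m = Finsupp.single 0 1 := by
  have hle : ∀ i, m i * (i + 1) ≤ 1 := by
    intro i
    rw [Finsupp.weight_apply, Finsupp.sum] at h
    by_cases hi : i ∈ m.support
    · exact (Finset.single_le_sum (f := fun j => m j • (j + 1))
        (fun _ _ => Nat.zero_le _) hi).trans h.le
    · simp [Finsupp.notMem_support_iff.mp hi]
  have hz : ∀ i, i ≠ 0 → m i = 0 := by
    intro i hi
    have := hle i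
    by_contra h0
    have h1 : 1 ≤ m i := Nat.pos_of_ne_zero h0
    have h2 : 2 ≤ i + 1 := by omega
    nlinarith
  have hm : m = Finsupp.single 0 (m 0) := by
    ext i
    by_cases hi : i = 0
    · subst hi; simp
    · simp [hz i hi, hi]
  rw [hm, Finsupp.weight_single] at h
  rw [hm]
  simp at h
  rw [h]

lemma hom_one (g : A) (h : IsWeightedHomogeneous (fun i : ℕ => i + 1) g 1) :
    ∃ f : R, g = C f * X 0 := by
  classical
  refine ⟨coeff (Finsupp.single 0 1) g, ?_⟩
  ext1 m
  rw [coeff_C_mul, coeff_X]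
  split_ifs with hm
  · rw [← hm, mul_one]
  · rw [mul_zero]
    by_contra h0
    exact hm (weight_one m (h h0)).symm

lemma subst0_monomial (w : Ahat) (m : ℕ) (hm : m ≠ 0) (r : R) :
    subst0 w (C r * X 0 ^ m) = taylor w r * dXH (newVar w) ^ m := by
  classical
  have e : (C r * X 0 ^ m : A) = monomial (Finsupp.single 0 m) r := by
    rw [X_pow_eq_monomial, C_mul_monomial, mul_one]
  rw [e, subst0, support_monomial]
  split_ifs with h
  · subst h
    have : taylor w 0 = 0 := by
      ext1 n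
      have : ∀ j, (PowerSeries.derivative ℂ : R → R)^[j] 0 = 0 :=
        fun j => Function.iterate_fixed (map_zero _) j
      simp [taylor, this]
    simp [this]
  · simp [Finsupp.support_single _ hm]

lemma taylor0 (w : Ahat) (r : R) : PowerSeries.coeff 0 (taylor w r) = C r := by
  simp [taylor]

lemma taylor1 (w : Ahat) (r : R) : PowerSeries.coeff 1 (taylor w r) =
    C (PowerSeries.derivative ℂ r) * PowerSeries.coeff 1 w := by
  rw [taylor, PowerSeries.coeff_mk]
  simp [Finset.sum_range_succ]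

lemma anti1 : antidiagonal 1 = {(0, 1), (1, 0)} := by decide

lemma not_carries (c c' : ℂ) (w : Ahat) (hw : IsMiura w) (h : Carries w (Q c) (Q c')) :
    c = c' := by
  obtain ⟨f, hf⟩ := hom_one _ (hw.1 1)
  have h0 : PowerSeries.coeff 0 (newVar w) = u := by
    rw [newVar, map_add, hw.2]; simp
  have h1 : PowerSeries.coeff 1 (newVar w) = C f * X 0 := by
    rw [newVar, map_add, hf, PowerSeries.coeff_C]; simp
  have key := congrArg (PowerSeries.coeff 1) (h 1)
  rw [coeff_evH, subst, PowerSeries.coeff_mk, anti1, Finset.sum_pair (by simp),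
    Finset.sum_pair (by simp)] at key
  simp only [] at key
  rw [h0, h1, coeff0_Q, coeff1_Q, coeff0_Q, coeff1_Q, ev_u, subst0_monomial w 2 (by norm_num)]
    at key
  have e : (u * X 0 : A) = C PowerSeries.X * X 0 ^ 1 := by rw [pow_one]; rfl
  have d0 : PowerSeries.coeff 0 (dXH (newVar w)) = X 0 := by rw [coeff_dXH, h0, dX_u]
  have d1 : PowerSeries.coeff 1 (dXH (newVar w)) =
      C (PowerSeries.derivative ℂ f) * X 0 * X 0 + C f * X 1 := by
    rw [coeff_dXH, h1, dX_eq, op_mul, op_C, op_X]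
  have s1 : PowerSeries.coeff 1 (subst0 w (u * X 0)) =
      u * (C (PowerSeries.derivative ℂ f) * X 0 * X 0 + C f * X 1) + C f * X 0 * X 0 := by
    rw [e, subst0_monomial w 1 one_ne_zero, pow_one, PowerSeries.coeff_mul, anti1,
      Finset.sum_pair (by simp)]
    simp only []
    rw [d0, d1, taylor0, taylor1, hf]
    simp [u]
  have s2 : PowerSeries.coeff 0 (taylor w (PowerSeries.C c') * dXH (newVar w) ^ 2) =
      C (PowerSeries.C c') * X 0 ^ 2 := by
    have t0 := taylor0 w (PowerSeries.C c')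
    simp only [PowerSeries.coeff_zero_eq_constantCoeff] at t0 d0 ⊢
    rw [map_mul, map_pow, t0, d0]
  have s3 : ev (u * X 0) (C f * X 0) = C (PowerSeries.derivative ℂ f) * (u * X 0) * X 0 +
      C f * (X 0 * X 0 + u * X 1) := by
    rw [ev_mul, ev_X0, ev_eq, op_C, dX_eq, op_mul, ← dX_eq, ← dX_eq, dX_u, dX_X]
  rw [s1, s2, s3] at key
  have k2 : (C (PowerSeries.C c) * X 0 ^ 2 : A) = C (PowerSeries.C c') * X 0 ^ 2 := by
    linear_combination key
  have k3 := mul_right_cancel₀ (pow_ne_zero 2 (X_ne_zero (R := R) (0 : ℕ))) k2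
  exact PowerSeries.C_injective (C_injective ℕ R k3)

theorem main : ∃ Q Q' : ℕ → Ahat, IsDeformation Q ∧ IsDeformation Q' ∧
    (∀ k, 2 ≤ k → b k (Q 1) = b k (Q' 1)) ∧ ¬ MiuraEquiv Q Q' := by
  refine ⟨Q 0, Q 1, isDef 0, isDef 1, fun k hk => by rw [b_Q _ _ hk, b_Q _ _ hk], ?_⟩
  rintro ⟨w, hw, h | h⟩
  · exact zero_ne_one (not_carries _ _ w hw h)
  · exact one_ne_zero (not_carries _ _ w hw h)

/-! Sanity check: the identity change of variable carries every family to itself. -/

lemma taylor_zero (r : R) : taylor 0 r = PowerSeries.C (C r) := by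
  ext1 n
  rw [taylor, PowerSeries.coeff_mk, Finset.sum_range_succ']
  simp

lemma dXH_iter_u (i : ℕ) : dXH^[i + 1] (newVar 0) = PowerSeries.C (X i) := by
  induction i with
  | zero => simp [newVar, dXH_C, dX_u]
  | succ i ih => rw [Function.iterate_succ_apply', ih, dXH_C, dX_X]

lemma subst0_zero (g : A) : subst0 0 g = PowerSeries.C g := by
  conv_rhs => rw [g.as_sum]
  rw [subst0, map_sum]
  refine Finset.sum_congr rfl fun m _ => ?_
  rw [taylor_zero, monomial_eq, map_mul, Finsupp.prod, map_prod]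
  simp only [dXH_iter_u, map_pow]

lemma subst_zero (g : Ahat) : subst 0 g = g := by
  ext1 n
  rw [subst, PowerSeries.coeff_mk, Finset.sum_eq_single (0, n)]
  · simp [subst0_zero]
  · rintro ⟨a, c⟩ h1 h2
    have : a ≠ 0 := by
      rintro rfl
      simp at h1; exact h2 (by simp [h1])
    simp [subst0_zero, PowerSeries.coeff_C, this]
  · simp

lemma miuraEquiv_refl (Q : ℕ → Ahat) : MiuraEquiv Q Q := by
  refine ⟨0, ⟨fun k => ?_, by simp⟩, Or.inl fun d => ?_⟩
  · simpa using isWeightedHomogeneous_zero _ _ _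
  · rw [subst_zero, newVar, add_zero, evH_u]

end H930Z.Riem
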